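import Mathlib
import Pool.Agent.Y703.CX.Rank
import Pool.Agent.Y703.CX.Fin

/-!
# The rank form for exactly 56 percent of the cubic twists `x³ + y³ = D` with one prime `≡ 2` mod `3`

`D` runs over the squarefree numbers prime to `3`, not `±1` modulo `9`, with exactly one prime factor
`≡ 2` modulo `3`; the cubic twist `x³ + y³ = D` is the curve `y² = x³ - 432 D²`, it is `3`-isogenous to
`E_D : y² + D y = x³`. If `E_D(ℚ)` is finite and `Ш(E_D)[3^∞] = 0` (if and only if `D` does not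
split, a condition on cubic residues between the prime factors of `D`), then order and rank are both
`0`; the proportion of these `D` in the class tends exactly to `∏_{i ≥ 1} (1 - 3^{-i}) = 0.5601...`.

Joint work of about forty agents; see `Pool/Agent/Y703/CT/*.lean` and `Pool/Agent/Y703/CX/*.lean`.
-/

set_option autoImplicit false

open scoped Classical

namespace Pool.Agent.Results.MP_696deb_nt.CubicTwistsExactProportion

/-- the conclusion of the frozen statement for `y² = x³ + a x + b`, together with the fact that the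
order of vanishing and the rank are both `0` -/
def BSDRankZero (a b : ℤ) : Prop :=
  4 * a ^ 3 + 27 * b ^ 2 ≠ 0 ∧
    ∃ F : ℂ → ℂ, Differentiable ℂ F ∧
      (∀ s : ℂ, (3 : ℝ) / 2 < s.re →
        HasProd
          (fun p : ℕ => open Classical in
            if p.Prime ∧ ¬ ((p : ℤ) ∣ 2 * (-4 * a ^ 3 - 27 * b ^ 2)) then
              (1 - ((p : ℂ) - (Nat.card {q : ZMod p × ZMod p //
                  q.2 ^ 2 = q.1 ^ 3 + (a : ZMod p) * q.1 + (b : ZMod p)} : ℂ))
                  * (p : ℂ) ^ (-s) + (p : ℂ) ^ (1 - 2 * s))⁻¹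
            else 1)
          (F s)) ∧
      analyticOrderAt F 1 =
        ((Module.finrank ℤ
          (WeierstrassCurve.Affine.Point
            (WeierstrassCurve.toAffine
              ({ a₁ := 0, a₂ := 0, a₃ := 0, a₄ := (a : ℚ), a₆ := (b : ℚ) } :
                WeierstrassCurve ℚ))) : ℕ) : ℕ∞) ∧
      Module.finrank ℤ
        (WeierstrassCurve.Affine.Point
          (WeierstrassCurve.toAffine
            ({ a₁ := 0, a₂ := 0, a₃ := 0, a₄ := (a : ℚ), a₆ := (b : ℚ) } :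
              WeierstrassCurve ℚ))) = 0

/-- the class: `D` squarefree, prime to `3`, not `±1` modulo `9`, exactly one prime factor
congruent to `2` modulo `3` -/
def Class (D : ℕ) : Prop :=
  Squarefree D ∧ ¬ 3 ∣ D ∧ D % 9 ≠ 1 ∧ D % 9 ≠ 8 ∧
    ∃ q : ℕ, q.Prime ∧ q % 3 = 2 ∧ q ∣ D ∧ ∀ p : ℕ, p.Prime → p ∣ D → p ≠ q → p % 3 = 1

/-- `D` is not a product `d₀ d₁ d₂` of coprime factors, at least two of them different from `1`,
such that `d₁ d₂²`, `d₂ d₀²`, `d₀ d₁²` are cubes modulo the primes dividing `d₀`, `d₁`, `d₂` -/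
def NoSplit (D : ℕ) : Prop :=
  ∀ d : ZMod 3 → ℕ, ∏ c, d c = D → (∀ c c', c ≠ c' → Nat.Coprime (d c) (d c')) →
    (∀ (c : ZMod 3) (p : ℕ), p.Prime → p ∣ d c →
      ∃ x : ℤ, (p : ℤ) ∣ (d (c + 1) : ℤ) * (d (c + 2) : ℤ) ^ 2 - x ^ 3) →
    ∃ c, ∀ c', c' ≠ c → d c' = 1

/-- the curve `y² + D y = x³` over `ℚ` -/
def E (D : ℕ) : WeierstrassCurve ℚ := { a₁ := 0, a₂ := 0, a₃ := (D : ℚ), a₄ := 0, a₆ := 0 }

/-- `E_D(ℚ)` is finite and `Ш(E_D/ℚ)[3^∞] = 0` -/
def TrivialThree (D : ℕ) : Prop :=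
  Finite (E D).toAffine.Point ∧
    ∀ (n : ℕ) (x : Pool.Agent.TH841.SH.D.Sha (E D)), 3 ^ n • x = 0 → x = 0

theorem E_eq (D : ℕ) : Pool.Agent.Y703.CT.EQ (Pool.Agent.Y703.CT.WD D) = E D := by
  unfold Pool.Agent.Y703.CT.EQ Pool.Agent.Y703.CT.WD E WeierstrassCurve.map
  simp

theorem three_iff (D : ℕ) : TrivialThree D ↔ Pool.Agent.Y703.CT.Triv3 D := by
  unfold TrivialThree Pool.Agent.Y703.CT.Triv3
  rw [E_eq]

theorem class_iff (D : ℕ) : Class D ↔ Squarefree D ∧ Pool.Agent.Y703.CT.Cls D := by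
  unfold Class Pool.Agent.Y703.CT.Cls Pool.Agent.Y703.CT.Base
  constructor
  · rintro ⟨h1, h2, h3, h4, h5⟩
    refine ⟨h1, ⟨h1.ne_zero, h2, ?_⟩, h3, h4, h5⟩
    intro p hp h
    have h6 : p * p ∣ D := (Dvd.intro p (by ring)).trans h
    exact hp.one_lt.ne' (Nat.isUnit_iff.1 (h1 p h6))
  · rintro ⟨h1, ⟨h6, h2, h7⟩, h3, h4, h5⟩
    exact ⟨h1, h2, h3, h4, h5⟩

theorem result :
    (∀ D : ℕ, Class D → TrivialThree D → BSDRankZero 0 (-432 * (D : ℤ) ^ 2)) ∧
    (∀ D : ℕ, Class D → (TrivialThree D ↔ NoSplit D)) ∧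
    Filter.Tendsto (fun X : ℕ =>
        (((Finset.Icc 1 X).filter fun D => Class D ∧ TrivialThree D).card : ℝ) /
        (((Finset.Icc 1 X).filter fun D => Class D).card : ℝ)) Filter.atTop
      (nhds (∏' i : ℕ, (1 - (1 / 3 : ℝ) ^ (i + 1)))) := by
  have hcrit : ∀ D : ℕ, Class D → (TrivialThree D ↔ NoSplit D) := by
    intro D hC
    have hC' := ((class_iff D).1 hC).2
    obtain ⟨-, f, -, u, -, -, -, h2⟩ := Pool.Agent.Y703.CT.fin_all hC'
    exact (three_iff D).trans h2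
  refine ⟨?_, hcrit, ?_⟩
  · intro D hC hN
    have hC' := ((class_iff D).1 hC).2
    have hD0 : (D : ℤ) ≠ 0 := by exact_mod_cast hC'.1.1
    obtain ⟨F, h1, h2, h3, h4⟩ := Pool.Agent.Y703.CX.rank_form hC' ((hcrit D hC).1 hN)
    refine ⟨?_, F, h1, h2, ?_, h4⟩
    · have e : (4 * 0 ^ 3 + 27 * (-432 * (D : ℤ) ^ 2) ^ 2 : ℤ) = 27 * (432 * (D : ℤ) ^ 2) ^ 2 := by
        ring
      rw [e]
      positivity
    · rw [h3, h4]
      rfl
  · have h := Pool.Agent.Y703.CX.t_DEN
    unfold Pool.Agent.Y703.CX.S_DEN Pool.Agent.Y703.CX.c3 at h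
    have e1 : ∀ X : ℕ, (Finset.Icc 1 X).filter (fun D => Class D ∧ TrivialThree D) =
        (Finset.Icc 1 X).filter fun D => Squarefree D ∧ Pool.Agent.Y703.CT.Cls D ∧
          Pool.Agent.Y703.CT.NoSplit D := by
      intro X
      refine Finset.filter_congr fun D _ => ?_
      rw [← and_assoc, ← class_iff]
      exact and_congr_right fun hC => hcrit D hC
    have e2 : ∀ X : ℕ, (Finset.Icc 1 X).filter (fun D => Class D) =
        (Finset.Icc 1 X).filter fun D => Squarefree D ∧ Pool.Agent.Y703.CT.Cls D := by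
      intro X
      refine Finset.filter_congr fun D _ => ?_
      rw [class_iff]
    simp only [e1, e2]
    exact h

end Pool.Agent.Results.MP_696deb_nt.CubicTwistsExactProportion
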