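import Pool.Agent.Z705.Fin
import Pool.Agent.Y687.MQ.Fin
import Pool.Agent.Y703.CQ.Cor

/-!
The exact proportion of the quadratic twists of the non-CM curve `X_0(14)` with rank `0`, trivial
`Ш[2]` and the rank form of the Birch and Swinnerton-Dyer conjecture, in the family of all
discriminants `D` (positive and negative, squarefree, prime to `42`, square modulo `7`) whose prime
factors split completely in `ℚ(√-1, √2, √-7)` or are inert in `ℚ(√2)` and in `ℚ(√-7)`: it is
`∏_{i ≥ 0} (1 - 2^{-(2i+1)}) = 0.4194...`.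

The criterion and the nonvanishing for a single `D` are the joint work of helper700, helper17, helper687 and their teams
(`TwoConverseBothSigns`); the exact proportion (`Pool/Agent/Y703/CQ`) is the joint work of
helpers 710, 356, 839, 948, 219, 657, 302, 697, 391, 488, 475, 362, 949, 405, 514 and 703, with the
models of helpers 261, 779, 419, 759, 911, 388, 495, 37, 87 and 461.
-/

set_option autoImplicit false

open Finset

namespace Pool.Agent.Results.MP_696deb_nt.ExactProportion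

/-- coefficients of the twist `E_D : y² = x³ + A D x + B D` of `X_0(14)` -/
def A (D : ℤ) : ℤ := 5805 * D ^ 2

/-- coefficients of the twist `E_D : y² = x³ + A D x + B D` of `X_0(14)` -/
def B (D : ℤ) : ℤ := -285714 * D ^ 3

/-- the curve `E_D` over `ℚ` -/
def E (D : ℤ) : WeierstrassCurve ℚ :=
  { a₁ := 0, a₂ := 0, a₃ := 0, a₄ := (A D : ℚ), a₆ := (B D : ℚ) }

/-- `E_D(ℚ)` is finite and `Ш(E_D/ℚ)` has no element of order two -/
def RankZeroShaTwo (D : ℤ) : Prop :=
  Finite (E D).toAffine.Point ∧ ∀ x : Pool.Agent.TH841.SH.D.Sha (E D), 2 • x = 0 → x = 0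

/-- the conclusion of the frozen statement for `y² = x³ + a x + b`, together with the fact that the
order of vanishing and the rank are both `0` -/
def BSDRankZero (a b : ℤ) : Prop :=
  4 * a ^ 3 + 27 * b ^ 2 ≠ 0 ∧
    ∃ F : ℂ → ℂ, Differentiable ℂ F ∧
      (∀ s : ℂ, (3 : ℝ) / 2 < s.re →
        HasProd
          (fun p : ℕ => open Classical in
            if p.Prime ∧ ¬ ((p : ℤ) ∣ 2 * (-4 * a ^ 3 - 27 * b ^ 2)) then
              (1 - ((p : ℂ) - (Nat.card {q : ZMod p × ZMod p //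
                  q.2 ^ 2 = q.1 ^ 3 + (a : ZMod p) * q.1 + (b : ZMod p)} : ℂ))
                  * (p : ℂ) ^ (-s) + (p : ℂ) ^ (1 - 2 * s))⁻¹
            else 1)
          (F s)) ∧
      analyticOrderAt F 1 =
        ((Module.finrank ℤ
          (WeierstrassCurve.Affine.Point
            (WeierstrassCurve.toAffine
              ({ a₁ := 0, a₂ := 0, a₃ := 0, a₄ := (a : ℚ), a₆ := (b : ℚ) } :
                WeierstrassCurve ℚ))) : ℕ) : ℕ∞) ∧
      Module.finrank ℤ
        (WeierstrassCurve.Affine.Point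
          (WeierstrassCurve.toAffine
            ({ a₁ := 0, a₂ := 0, a₃ := 0, a₄ := (a : ℚ), a₆ := (b : ℚ) } :
              WeierstrassCurve ℚ))) = 0

/-- primes inert in `ℚ(√-7)` and in `ℚ(√2)` -/
def Inert (q : ℕ) : Prop :=
  q.Prime ∧ (q % 8 = 3 ∨ q % 8 = 5) ∧ (q % 7 = 3 ∨ q % 7 = 5 ∨ q % 7 = 6)

/-- primes congruent to `1` modulo `8` that split in `ℚ(√-7)` -/
def Split (p : ℕ) : Prop := p.Prime ∧ p % 8 = 1 ∧ (p % 7 = 1 ∨ p % 7 = 2 ∨ p % 7 = 4)

/-- the family of discriminants: squarefree, `1` modulo `4`, a square modulo `7`, all prime factors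
different from `3` and split or inert as above -/
def Family (D : ℤ) : Prop := Squarefree D ∧ D % 4 = 1 ∧ (D % 7 = 1 ∨ D % 7 = 2 ∨ D % 7 = 4) ∧
  ∀ p : ℕ, p.Prime → (p : ℤ) ∣ D → p ≠ 3 ∧ (Split p ∨ Inert p)

theorem family_iff (D : ℤ) : Family D ↔ Y687.MQ.AdmD D := Iff.rfl

theorem rank_iff {D : ℤ} (h : Y687.MQ.AdmD D) : RankZeroShaTwo D ↔ (Y687.MQ.matD D).det ≠ 0 := by
  obtain ⟨hP, hT, -, he⟩ := Y687.MQ.of_admD h
  have h1 := Z704.equivS Z702.f_COC Z702.f_LOT Z702.f_COB Z702.f_TOR Z702.f_LQ Z702.f_LG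
    Z702.f_LP Z702.f_LIN Z702.f_TRN Z705.f_SELA Z705.f_SELB (Z705.cnd hP hT)
  have he' : ((Z700.pr (Y687.MQ.SP D) : ℕ) : ℤ) * Y687.DD (Y687.MQ.IP D) = D := he
  rw [he'] at h1
  have hm : Y687.DD (Y687.MQ.IP D) = Z700.pr (Y687.MQ.IP D) ∨
      Y687.DD (Y687.MQ.IP D) = -(Z700.pr (Y687.MQ.IP D) : ℤ) := by
    refine Int.natAbs_eq_natAbs_iff.1 ?_
    rw [Y687.DD_natAbs, Int.natAbs_natCast]
    rfl
  rw [Y687.MQ.matD_eq, Y687.MQ.matT_iff hP hT, ← Y687.MQ.det_ind hP hT hm, h1]
  unfold RankZeroShaTwo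
  refine and_congr Iff.rfl (forall_congr' fun x => ?_)
  rw [two_nsmul]
  rfl

theorem bsd_of {D : ℤ} (hD : D ≠ 0) (h : Y687.WB D) : BSDRankZero (A D) (B D) := by
  obtain ⟨⟨f, hf, hfp, hf1⟩, hfin⟩ := h
  obtain ⟨F, h1, h2, h3, h4⟩ := Y687.rankBSD hf hfp hf1 hfin
  refine ⟨?_, F, h1, h2, ?_, h4⟩
  · have e : 4 * A D ^ 3 + 27 * B D ^ 2 = (4 * 5805 ^ 3 + 27 * 285714 ^ 2) * D ^ 6 := by
      unfold A B
      ring
    rw [e]
    exact mul_ne_zero (by norm_num) (pow_ne_zero 6 hD)
  · unfold A B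
    rw [h3, h4]
    rfl

open Classical in
/-- the number of the `D` of the family between `a` and `b` -/
noncomputable def total (a b : ℤ) : ℕ := ((Icc a b).filter fun D => Family D).card

open Classical in
/-- the number of those with `E_D(ℚ)` finite and `Ш(E_D/ℚ)[2] = 0` -/
noncomputable def good (a b : ℤ) : ℕ :=
  ((Icc a b).filter fun D => Family D ∧ RankZeroShaTwo D).card

theorem result :
    (∀ D : ℤ, Family D → RankZeroShaTwo D → BSDRankZero (A D) (B D)) ∧
    Filter.Tendsto (fun X : ℕ => (good 1 X : ℝ) / (total 1 X : ℝ))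
      Filter.atTop (nhds (∏' i : ℕ, (1 - (1 / 2 : ℝ) ^ (2 * i + 1)))) ∧
    Filter.Tendsto (fun X : ℕ => (good (-X) (-1) : ℝ) / (total (-X) (-1) : ℝ))
      Filter.atTop (nhds (∏' i : ℕ, (1 - (1 / 2 : ℝ) ^ (2 * i + 1)))) := by
  classical
  refine ⟨fun D hF hR => bsd_of hF.1.ne_zero (Y687.MQ.WB_D hF ((rank_iff hF).1 hR)), ?_, ?_⟩
  · have h := Y703.CQ.prop_pos
    unfold Y703.CQ.c2 at h
    refine h.congr fun X => congrArg₂ (fun a b : ℕ => (a : ℝ) / (b : ℝ)) ?_ ?_
    · refine congrArg Finset.card (Finset.ext fun D => ?_)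
      refine (Finset.mem_filter).trans (Iff.trans ?_ (Finset.mem_filter).symm)
      exact and_congr_right fun _ => and_congr_right fun hD => (rank_iff hD).symm
    · refine congrArg Finset.card (Finset.ext fun D => ?_)
      refine (Finset.mem_filter).trans (Iff.trans ?_ (Finset.mem_filter).symm)
      exact Iff.rfl
  · have h := Y703.CQ.prop_neg
    unfold Y703.CQ.c2 at h
    refine h.congr fun X => congrArg₂ (fun a b : ℕ => (a : ℝ) / (b : ℝ)) ?_ ?_
    · refine congrArg Finset.card (Finset.ext fun D => ?_)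
      refine (Finset.mem_filter).trans (Iff.trans ?_ (Finset.mem_filter).symm)
      exact and_congr_right fun _ => and_congr_right fun hD => (rank_iff hD).symm
    · refine congrArg Finset.card (Finset.ext fun D => ?_)
      refine (Finset.mem_filter).trans (Iff.trans ?_ (Finset.mem_filter).symm)
      exact Iff.rfl

end Pool.Agent.Results.MP_696deb_nt.ExactProportion
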