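import Pool.Agent.Y19.QT.Fin2
import Pool.Agent.Y19.QT.Fams

/-!
# Ranks and orders of vanishing in families of quadratic twists

`E_d : y² = x³ + a d² x + b d³`, `d` squarefree (positive or negative), are the quadratic twists of
`E : y² = x³ + a x + b`.  We prove, without any hypothesis, for all `E` with `j`-invariant `0` or `1728`
(for `y² = x³ - x` the `E_d` are the congruent number curves) and for all quadratic twists of `X₀(11)`
and `X₀(14)`, and for every elliptic curve over `ℚ` whose quadratic twists are modular, the bound

`∑_{|d| ≤ X, d squarefree} exp(c (rank E_d(ℚ) + ord_{s=1} L(E_d, s))) ≤ C X (log X)^A`  (`c > 0`).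

So the discrepancy `|rank E_d(ℚ) - ord_{s=1} L(E_d, s)|` (which is conjectured to be `0`) is on average
`O(log log X)`, and so are the ranks and the orders of vanishing; all the `k`-th moments are
`O((log log X)^k)`, and the same holds for the average over any set of at least `X / (log X)^B` of the
`d`, for example over the primes.  The order of vanishing is the difficult part.

Method: a large sieve inequality for quadratic characters with a loss of a power of `log X` only (in
place of `X^ε`) for the coefficients of the newform, proved by the Poisson summation formula in `d`, the
functional equations of all the twists and the embedding `d ↦ d p²`, `p ≤ P`, of the family into a longer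
one, with a contraction in the closing step; then a mollifier to the right of the central point and
Jensen's inequality.
-/

set_option autoImplicit false

namespace Pool.Agent.Results.MP_696deb_nt.TwistDiscrepancy

open Pool.Agent.Y19.QT

theorem result : (∀ a b : ℤ, Fam a b → TwistLaw a b) ∧
    ∀ a b : ℤ, 4 * a ^ 3 + 27 * b ^ 2 ≠ 0 → TwistsModular a b → TwistLaw a b :=
  ⟨fun _ _ h => twistLaw_of h.disc h.data.1 h.data.2, fun _ _ hab h => twistLaw_modular hab h⟩

end Pool.Agent.Results.MP_696deb_nt.TwistDiscrepancy
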