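import Pool.Agent.Z705.Fin

/-!
A `2`-converse theorem: the rank form of the Birch and Swinnerton-Dyer conjecture (with order of
vanishing and rank both equal to `0`) for ALL quadratic twists `E_D`, positive and negative, of the
non-CM curve `X_0(14) : y² = x³ + 5805 x - 285714` with `E_D(ℚ)` finite and `Ш(E_D)[2] = 0`, where `D`
runs over the products of arbitrarily many primes which split completely in `ℚ(√-1, √2, √-7)` and of
arbitrarily many primes which are inert in `ℚ(√2)` and in the `2`-division field `ℚ(√-7)`, the number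
of the latter which are congruent to `5` modulo `8` being even (and `D < 0` if `3 ∣ D`). The
hypothesis holds if and only if an explicit matrix over `𝔽₂` is nonsingular.
-/

set_option autoImplicit false

open Finset

namespace Pool.Agent.Results.MP_696deb_nt.TwoConverseBothSigns

/-- coefficients of the twist `E_D : y² = x³ + A D x + B D` of `X_0(14)` -/
def A (D : ℤ) : ℤ := 5805 * D ^ 2

/-- coefficients of the twist `E_D : y² = x³ + A D x + B D` of `X_0(14)` -/
def B (D : ℤ) : ℤ := -285714 * D ^ 3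

/-- the curve `E_D` over `ℚ` -/
def E (D : ℤ) : WeierstrassCurve ℚ :=
  { a₁ := 0, a₂ := 0, a₃ := 0, a₄ := (A D : ℚ), a₆ := (B D : ℚ) }

/-- `E_D(ℚ)` is finite and `Ш(E_D/ℚ)` has no element of order two -/
def RankZeroShaTwo (D : ℤ) : Prop :=
  Finite (E D).toAffine.Point ∧ ∀ x : Pool.Agent.TH841.SH.D.Sha (E D), 2 • x = 0 → x = 0

/-- number of points of `E_D` over `ZMod p`, the point at infinity included -/
noncomputable def N (D : ℤ) (p : ℕ) : ℕ :=
  1 + Nat.card {z : ZMod p × ZMod p // z.2 ^ 2 = z.1 ^ 3 + (A D : ZMod p) * z.1 + (B D : ZMod p)}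

/-- the conclusion of the frozen statement for `y² = x³ + a x + b`, together with the fact that the
order of vanishing and the rank are both `0` -/
def BSDRankZero (a b : ℤ) : Prop :=
  4 * a ^ 3 + 27 * b ^ 2 ≠ 0 ∧
    ∃ F : ℂ → ℂ, Differentiable ℂ F ∧
      (∀ s : ℂ, (3 : ℝ) / 2 < s.re →
        HasProd
          (fun p : ℕ => open Classical in
            if p.Prime ∧ ¬ ((p : ℤ) ∣ 2 * (-4 * a ^ 3 - 27 * b ^ 2)) then
              (1 - ((p : ℂ) - (Nat.card {q : ZMod p × ZMod p //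
                  q.2 ^ 2 = q.1 ^ 3 + (a : ZMod p) * q.1 + (b : ZMod p)} : ℂ))
                  * (p : ℂ) ^ (-s) + (p : ℂ) ^ (1 - 2 * s))⁻¹
            else 1)
          (F s)) ∧
      analyticOrderAt F 1 =
        ((Module.finrank ℤ
          (WeierstrassCurve.Affine.Point
            (WeierstrassCurve.toAffine
              ({ a₁ := 0, a₂ := 0, a₃ := 0, a₄ := (a : ℚ), a₆ := (b : ℚ) } :
                WeierstrassCurve ℚ))) : ℕ) : ℕ∞) ∧
      Module.finrank ℤ
        (WeierstrassCurve.Affine.Point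
          (WeierstrassCurve.toAffine
            ({ a₁ := 0, a₂ := 0, a₃ := 0, a₄ := (a : ℚ), a₆ := (b : ℚ) } :
              WeierstrassCurve ℚ))) = 0

/-- primes inert in `ℚ(√-7)` and in `ℚ(√2)` -/
def Inert (q : ℕ) : Prop :=
  q.Prime ∧ (q % 8 = 3 ∨ q % 8 = 5) ∧ (q % 7 = 3 ∨ q % 7 = 5 ∨ q % 7 = 6)

/-- primes congruent to `1` modulo `8` that split in `ℚ(√-7)` -/
def Split (p : ℕ) : Prop := p.Prime ∧ p % 8 = 1 ∧ (p % 7 = 1 ∨ p % 7 = 2 ∨ p % 7 = 4)

/-- the product of the prime discriminants `± q`, `q ∈ T` -/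
def disc (T : Finset ℕ) : ℤ := ∏ q ∈ T, if q % 4 = 1 then (q : ℤ) else -q

open Classical in
/-- the matrix over `𝔽₂` with rows and columns indexed by the primes in `P`: off the diagonal the
entry at `(p, p')` is `1` if `p'` is not a square modulo `p` and `0` otherwise; on the diagonal it
is the number of the primes in `P` different from `p` which are not squares modulo `p`, plus `1` if
the number of points of `E_m` modulo `p` is not divisible by `8` -/
noncomputable def R (P : Finset ℕ) (m : ℤ) : Matrix P P (ZMod 2) := Matrix.of fun i j =>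
  if i = j then
    (((P.filter fun p' : ℕ => p' ≠ (i : ℕ) ∧ ¬ IsSquare (p' : ZMod (i : ℕ))).card : ZMod 2) +
      if 8 ∣ N m (i : ℕ) then 0 else 1)
  else if IsSquare (((j : ℕ)) : ZMod (i : ℕ)) then 0 else 1

theorem result (P T : Finset ℕ) (hP : ∀ p ∈ P, Split p) (hT : ∀ q ∈ T, Inert q)
    (hne : (P ∪ T).Nonempty) :
    ((Even (T.filter fun q => q % 8 = 5).card ∧ (3 ∈ T → disc T < 0) ∨ P.card ≤ 1 ∨
        P.card = 2 ∧ ∀ q ∈ T, q % 8 = 5) →
      RankZeroShaTwo ((∏ p ∈ P, (p : ℤ)) * disc T) →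
      BSDRankZero (A ((∏ p ∈ P, (p : ℤ)) * disc T)) (B ((∏ p ∈ P, (p : ℤ)) * disc T))) ∧
    (RankZeroShaTwo ((∏ p ∈ P, (p : ℤ)) * disc T) ↔ (R P (disc T)).det ≠ 0) ∧
    ∀ e : ℕ, (e = 3 ∨ e = 5) →
      {q : ℕ | Inert q ∧ q % 8 = e ∧ q ∉ T ∧ (R P (disc (insert q T))).det ≠ 0}.Infinite := by
  classical
  have hN : ∀ (m : ℤ) (p : ℕ), N m p = Y687.cnt (5805 * m ^ 2) (-285714 * m ^ 3) p + 1 :=
    fun m p => by
      unfold N Y687.cnt A B
      rw [add_comm]
  have hR : ∀ m : ℤ, R P m = Y17.N.matC P (fun p => 8 ∣ N m p) := by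
    intro m
    unfold R Y17.N.matC
    ext i j
    simp only [Matrix.of_apply]
    by_cases hij : i = j
    · rw [if_pos hij, if_pos hij]
      congr 1
      by_cases h8 : 8 ∣ N m i
      · rw [if_pos h8, if_pos h8]
      · rw [if_neg h8, if_neg h8]
    · rw [if_neg hij, if_neg hij]
  have hP' : ∀ p ∈ P, Y17.N.Sp p := hP
  have hdisc : ∀ S : Finset ℕ, disc S = Y687.DD S := fun S => rfl
  have hdet : ∀ S : Finset ℕ, (∀ q ∈ S, Inert q) →
      ((R P (disc S)).det ≠ 0 ↔ Odd (Z700.Yd Z700.lres (Y687.N.xrZ (Y687.DD S)) P)) := by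
    intro S hS
    rw [hR, hdisc]
    exact Z705.mat_iff hP' hS fun p _ => by rw [hN]
  have hprP : (∏ p ∈ P, (p : ℤ)) = ((Z700.pr P : ℕ) : ℤ) := by
    unfold Z700.pr
    push_cast
    rfl
  have hEq : RankZeroShaTwo ((∏ p ∈ P, (p : ℤ)) * disc T) ↔
      Odd (Z700.Yd Z700.lres (Y687.N.xrZ (Y687.DD T)) P) := by
    have h1 := Z704.equivS Z702.f_COC Z702.f_LOT Z702.f_COB Z702.f_TOR Z702.f_LQ Z702.f_LG
      Z702.f_LP Z702.f_LIN Z702.f_TRN Z705.f_SELA Z705.f_SELB (Z705.cnd hP' hT)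
    rw [hprP, hdisc]
    unfold RankZeroShaTwo
    rw [h1]
    refine and_congr Iff.rfl (forall_congr' fun x => ?_)
    rw [two_nsmul]
    rfl
  have hD : ∀ D : ℤ, D ≠ 0 → 4 * A D ^ 3 + 27 * B D ^ 2 ≠ 0 := by
    intro D hD
    have e : 4 * A D ^ 3 + 27 * B D ^ 2 = (4 * 5805 ^ 3 + 27 * 285714 ^ 2) * D ^ 6 := by
      unfold A B
      ring
    rw [e]
    exact mul_ne_zero (by norm_num) (pow_ne_zero 6 hD)
  have key : ∀ D : ℤ, D ≠ 0 → Y687.WB D → BSDRankZero (A D) (B D) := by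
    intro D hD0 h
    obtain ⟨⟨f, hf, hfp, hf1⟩, hfin⟩ := h
    obtain ⟨F, h1, h2, h3, h4⟩ := Y687.rankBSD hf hfp hf1 hfin
    refine ⟨hD D hD0, F, h1, h2, ?_, h4⟩
    unfold A B
    rw [h3, h4]
    rfl
  have hM0 : (∏ p ∈ P, (p : ℤ)) * disc T ≠ 0 := by
    refine mul_ne_zero ?_ ?_
    · exact Finset.prod_ne_zero_iff.2 fun r hr => by exact_mod_cast (hP r hr).1.ne_zero
    · rw [hdisc]
      intro h0
      have h1 := Z705.DD_mod4 (T := T) hT
      rw [h0] at h1
      norm_num at h1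
  refine ⟨fun hor hsel => ?_, ?_, ?_⟩
  · have hY := hEq.1 hsel
    refine key _ hM0 ?_
    rw [hprP, hdisc]
    rcases hor with ⟨hev, h3⟩ | hle | ⟨hc, h5⟩
    · exact Z705.weak_both Z700.f_SYM Z705.f_DIAG Z705.f_IND Y17.N.f_BIL Y17.N.f_T8 Z705.f_IND3G
        Z705.f_INDQG hP' hT hne ⟨Nat.even_iff.1 hev, h3⟩ hY
    · exact Z705.weak_le_one hP' hT hne hle hY
    · exact Z705.weak_two hP' hT hc h5 hY
  · rw [hEq]
    exact (hdet T hT).symm
  · intro e he
    refine (Z705.exi (T := T) hP' hT he).mono ?_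
    rintro q ⟨h1, h2, h3, h4⟩
    have hI : ∀ r ∈ insert q T, Inert r := by
      intro r hr
      rcases Finset.mem_insert.1 hr with rfl | hr
      · exact h1
      · exact hT r hr
    exact ⟨h1, h2, h3, (hdet _ hI).2 h4⟩

end Pool.Agent.Results.MP_696deb_nt.TwoConverseBothSigns
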